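import Pool.Agent.TH182.VG.Main

/-!
# Entire curves on very general hypersurfaces of degree at least `2 n + 2`

Let `n ≥ 1`, `d ≥ 2 n + 2` and let `X ⊂ ℙ^{n+1}` be a hypersurface of degree `d` whose equation has
coefficients (at all monomials of degree `d`) which are algebraically independent over `ℚ`; these
are all hypersurfaces outside a countable union of proper closed subsets of the parameter space.
Every entire curve in `X` with homogeneous coordinates satisfying linear differential equations
over a differential ring of meromorphic functions of transcendence degree at most one (polynomials,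
polynomials in `exp (a z)`, elliptic functions) is constant.
-/

set_option autoImplicit false

namespace Pool.Agent.Results.MP_b509a1_ag.HolonomicVeryGeneral

open Filter MvPolynomial
open scoped LinearAlgebra.Projectivization
open Pool.Agent.TH143.EL Pool.Agent.TH182.VG

theorem result (n d : ℕ) (hn : 1 ≤ n) (hd : 2 * n + 2 ≤ d) :
    -- hypersurfaces with algebraically independent coefficients
    (∀ F : MvPolynomial (Fin (n + 1 + 1)) ℂ, F.IsHomogeneous d →
      AlgebraicIndependent ℚ (coeffs d F) → SmoothHyp F ∧ LinearHyperbolic F) ∧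
    -- hypersurfaces outside a countable union of proper closed subsets
    (∃ Ps : Set (MvPolynomial {m : Fin (n + 1 + 1) →₀ ℕ // m.degree = d} ℂ),
      Ps.Countable ∧ 0 ∉ Ps ∧
      ∀ F : MvPolynomial (Fin (n + 1 + 1)) ℂ, F.IsHomogeneous d →
        (∀ P ∈ Ps, eval (coeffs d F) P ≠ 0) → SmoothHyp F ∧ LinearHyperbolic F) ∧
    -- examples of rings of coefficients
    (TrOne (Algebra.adjoin ℂ {fun z : ℂ => z}) ∧
      (∀ a : ℂ, TrOne (Algebra.adjoin ℂ {fun z : ℂ => Complex.exp (a * z)})) ∧
      ∀ ω₁ ω₂ : ℂ, LinearIndependent ℝ ![ω₁, ω₂] → TrOne (Ell ω₁ ω₂)) := by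
  have h1 : ∀ F : MvPolynomial (Fin (n + 1 + 1)) ℂ, F.IsHomogeneous d →
      AlgebraicIndependent ℚ (coeffs d F) → SmoothHyp F ∧ LinearHyperbolic F :=
    fun F hF hind => ⟨smooth_of_indep hF hind, hyperbolic_of_indep hn hd hF hind⟩
  obtain ⟨Ps, hc, h0, hP⟩ := very_general (n := n) d
  exact ⟨h1, ⟨Ps, hc, h0, fun F hF h2 => h1 F hF (hP F h2)⟩, trOne_poly, trOne_exp,
    fun ω₁ ω₂ h => trOne_ell h⟩

end Pool.Agent.Results.MP_b509a1_ag.HolonomicVeryGeneral
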